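import Mathlib
import Pool.Agent.N385.ST.Morton
import Pool.Agent.N385.ST.Steiner

/-!
# The number of simultaneously optimal Steiner topologies is at most exponential

For every `d` there is `C` with `N_d(n) ≤ C ^ n` for all `n ≥ 3`; here `N_d(n)` is the maximal number
of full topologies of Steiner trees for the same `n` points of `ℝ^d`.  Proof: in the Morton order of
the vertices every quotient of the tree by a partition into `K` intervals has at most `D * K` edges.
-/

set_option autoImplicit false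

namespace Pool.Agent.Results.MP_816b7a_co.ExponentialBound

open MeasureTheory
open Pool.Agent.N385.ST

/-- `K` is a Steiner tree for `A`: a compact connected set containing `A` of minimal
one-dimensional Hausdorff measure -/
def IsSteiner {d : ℕ} (A K : Set (EuclideanSpace ℝ (Fin d))) : Prop :=
  A ⊆ K ∧ IsCompact K ∧ IsConnected K ∧
    ∀ K' : Set (EuclideanSpace ℝ (Fin d)), A ⊆ K' → IsCompact K' → IsConnected K' →
      μH[1] K ≤ μH[1] K'

/-- the points `A i` have a Steiner tree whose underlying abstract graph is `G` (`Sum.inl i` is the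
terminal `A i`, the vertices `Sum.inr j` are the Steiner points) -/
def Has {d n k : ℕ} (A : Fin n → EuclideanSpace ℝ (Fin d)) (G : SimpleGraph (Fin n ⊕ Fin k)) : Prop :=
  G.IsTree ∧ ∃ p : Fin n ⊕ Fin k → EuclideanSpace ℝ (Fin d),
    (∀ i, p (Sum.inl i) = A i) ∧ Function.Injective p ∧
    (∀ a b a' b', G.Adj a b → G.Adj a' b' → s(a, b) ≠ s(a', b') →
      segment ℝ (p a) (p b) ∩ segment ℝ (p a') (p b') ⊆ {p a, p b} ∩ {p a', p b'}) ∧
    IsSteiner (Set.range A) (⋃ (a) (b) (_ : G.Adj a b), segment ℝ (p a) (p b))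

/-- `G` is full: every terminal is a leaf, every Steiner point has degree `3` -/
def IsFull {n k : ℕ} (G : SimpleGraph (Fin n ⊕ Fin k)) : Prop :=
  (∀ i, (G.neighborSet (Sum.inl i)).ncard = 1) ∧ ∀ j, (G.neighborSet (Sum.inr j)).ncard = 3

/-- two graphs are the same topology if they are isomorphic by an isomorphism which fixes the
terminals -/
def topSetoid (n k : ℕ) : Setoid (SimpleGraph (Fin n ⊕ Fin k)) where
  r G G' := ∃ φ : G ≃g G', ∀ i : Fin n, φ (Sum.inl i) = Sum.inl i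
  iseqv := {
    refl := fun G => ⟨SimpleGraph.Iso.refl, fun _ => rfl⟩
    symm := by
      rintro G G' ⟨φ, h⟩
      refine ⟨φ.symm, fun i => ?_⟩
      have h2 := φ.toEquiv.symm_apply_apply (Sum.inl i)
      have h3 : φ.toEquiv (Sum.inl i) = Sum.inl i := h i
      rw [h3] at h2
      exact h2
    trans := by
      rintro G G' G'' ⟨φ, h⟩ ⟨ψ, h'⟩
      refine ⟨φ.trans ψ, fun i => ?_⟩
      show ψ (φ (Sum.inl i)) = Sum.inl i
      rw [h i, h' i] }

/-- topologies with `n` labelled terminals and `k` unlabelled Steiner points -/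
def Topo (n k : ℕ) : Type := Quotient (topSetoid n k)

/-- the topology of a graph -/
def Topo.mk {n k : ℕ} (G : SimpleGraph (Fin n ⊕ Fin k)) : Topo n k := Quotient.mk (topSetoid n k) G

/-- the topologies of the Steiner trees for `A` with `k` Steiner points -/
def tops {d n : ℕ} (k : ℕ) (A : Fin n → EuclideanSpace ℝ (Fin d)) : Set (Topo n k) :=
  {τ | ∃ G, Topo.mk G = τ ∧ Has A G}

/-- the full topologies of the Steiner trees for `A` -/
def fullTops {d n : ℕ} (A : Fin n → EuclideanSpace ℝ (Fin d)) : Set (Topo n (n - 2)) :=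
  {τ | ∃ G, Topo.mk G = τ ∧ IsFull G ∧ Has A G}

/-- `N_d(n)` -/
noncomputable def Nd (d n : ℕ) : ℕ :=
  sSup {N | ∃ A : Fin n → EuclideanSpace ℝ (Fin d), Function.Injective A ∧ N = (fullTops A).ncard}

instance (n k : ℕ) : Finite (Topo n k) := Quotient.finite _

/-- injections into the naturals with the same image and the same order agree -/
theorem same_order {n : ℕ} (F F' : Fin n → ℕ) (hF : Function.Injective F)
    (hF' : Function.Injective F') (him : Finset.univ.image F = Finset.univ.image F')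
    (hord : ∀ i i', F i < F i' ↔ F' i < F' i') (i : Fin n) : F i = F' i := by
  classical
  obtain ⟨W, hW⟩ : ∃ W, W = Finset.univ.image F := ⟨_, rfl⟩
  have h1 : (W.filter (· < F i)).card = (Finset.univ.filter fun i' => F i' < F i).card := by
    rw [hW, Finset.filter_image, Finset.card_image_of_injective _ hF]
  have h2 : (W.filter (· < F' i)).card = (Finset.univ.filter fun i' => F' i' < F' i).card := by
    rw [hW, him, Finset.filter_image, Finset.card_image_of_injective _ hF']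
  have h3 : (Finset.univ.filter fun i' => F i' < F i) = Finset.univ.filter fun i' => F' i' < F' i :=
    Finset.filter_congr fun i' _ => hord i' i
  rw [h3] at h1
  have h4 := h1.trans h2.symm
  have m1 : F i ∈ W := by rw [hW]; exact Finset.mem_image_of_mem _ (Finset.mem_univ _)
  have m2 : F' i ∈ W := by rw [hW, him]; exact Finset.mem_image_of_mem _ (Finset.mem_univ _)
  have key : ∀ x ∈ W, ∀ y, x < y → (W.filter (· < x)).card < (W.filter (· < y)).card := by
    intro x hx y hxy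
    apply Finset.card_lt_card
    rw [Finset.ssubset_iff_of_subset]
    · refine ⟨x, ?_, ?_⟩
      · rw [Finset.mem_filter]
        exact ⟨hx, hxy⟩
      · rw [Finset.mem_filter]
        exact fun h => lt_irrefl _ h.2
    · intro w hw
      rw [Finset.mem_filter] at hw ⊢
      exact ⟨hw.1, hw.2.trans hxy⟩
  rcases lt_trichotomy (F i) (F' i) with h | h | h
  · exact absurd h4 (key _ m1 _ h).ne
  · exact h
  · exact absurd h4 (key _ m2 _ h).ne'

/-- the codes determine the topology -/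
theorem same_top {n k N : ℕ} (hN : Fintype.card (Fin n ⊕ Fin k) = N)
    {G G' : SimpleGraph (Fin n ⊕ Fin k)} {r r' : Fin n ⊕ Fin k → ℕ} (hr : Function.Injective r)
    (hr' : Function.Injective r') (hlt : ∀ v, r v < N) (hlt' : ∀ v, r' v < N)
    (hW : (Finset.univ.image fun i => r (Sum.inl i)) = Finset.univ.image fun i => r' (Sum.inl i))
    (hord : ∀ i i', r (Sum.inl i) < r (Sum.inl i') ↔ r' (Sum.inl i) < r' (Sum.inl i'))
    (hM : adjm r G = adjm r' G') : Topo.mk G = Topo.mk G' := by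
  have hterm : ∀ i, r (Sum.inl i) = r' (Sum.inl i) :=
    same_order (fun i => r (Sum.inl i)) (fun i => r' (Sum.inl i))
      (fun i j h => Sum.inl_injective (hr h)) (fun i j h => Sum.inl_injective (hr' h)) hW hord
  have hb : Function.Bijective fun v => (⟨r v, hlt v⟩ : Fin N) := by
    rw [Fintype.bijective_iff_injective_and_card]
    refine ⟨fun u v h => hr (congrArg Fin.val h), ?_⟩
    rw [hN, Fintype.card_fin]
  have hb' : Function.Bijective fun v => (⟨r' v, hlt' v⟩ : Fin N) := by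
    rw [Fintype.bijective_iff_injective_and_card]
    refine ⟨fun u v h => hr' (congrArg Fin.val h), ?_⟩
    rw [hN, Fintype.card_fin]
  obtain ⟨e, he⟩ : ∃ e : (Fin n ⊕ Fin k) ≃ Fin N, ∀ v, ((e v : Fin N) : ℕ) = r v :=
    ⟨Equiv.ofBijective _ hb, fun v => rfl⟩
  obtain ⟨e', he'⟩ : ∃ e : (Fin n ⊕ Fin k) ≃ Fin N, ∀ v, ((e v : Fin N) : ℕ) = r' v :=
    ⟨Equiv.ofBijective _ hb', fun v => rfl⟩
  have hφ : ∀ v, r' (e'.symm (e v)) = r v := by
    intro v
    rw [← he', Equiv.apply_symm_apply, he]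
  apply Quotient.sound
  refine ⟨⟨e.trans e'.symm, ?_⟩, fun i => ?_⟩
  · intro a b
    show G'.Adj (e'.symm (e a)) (e'.symm (e b)) ↔ G.Adj a b
    constructor
    · intro h
      have h1 : (r a, r b) ∈ adjm r' G' := mem_adjm.2 ⟨_, _, h, hφ a, hφ b⟩
      rw [← hM] at h1
      obtain ⟨u, v, huv, h2, h3⟩ := mem_adjm.1 h1
      rw [← hr h2, ← hr h3]
      exact huv
    · intro h
      have h1 : (r a, r b) ∈ adjm r G := mem_adjm.2 ⟨_, _, h, rfl, rfl⟩
      rw [hM] at h1
      obtain ⟨u, v, huv, h2, h3⟩ := mem_adjm.1 h1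
      have h4 : u = e'.symm (e a) := hr' (h2.trans (hφ a).symm)
      have h5 : v = e'.symm (e b) := hr' (h3.trans (hφ b).symm)
      rw [← h4, ← h5]
      exact huv
  · show e'.symm (e (Sum.inl i)) = Sum.inl i
    apply hr'
    rw [hφ, hterm]

theorem dist_ex {d n k : ℕ} (hn : 2 ≤ n) {A : Fin n → EuclideanSpace ℝ (Fin d)}
    {G : SimpleGraph (Fin n ⊕ Fin k)} (hG : G.IsTree)
    {p : Fin n ⊕ Fin k → EuclideanSpace ℝ (Fin d)} (hp : ∀ i, p (Sum.inl i) = A i)
    (hemb : ∀ a b a' b', G.Adj a b → G.Adj a' b' → s(a, b) ≠ s(a', b') →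
      segment ℝ (p a) (p b) ∩ segment ℝ (p a') (p b') ⊆ {p a, p b} ∩ {p a', p b'})
    (hS : IsSteiner (Set.range A) (⋃ (a) (b) (_ : G.Adj a b), segment ℝ (p a) (p b))) :
    ∀ u v u' v', G.Adj u v → G.Adj u' v' → s(u, v) ≠ s(u', v') → ‖p u - p u'‖ < ‖p v - p u‖ →
      ‖p v - p u‖ ≤ ‖p v - p v'‖ := by
  have hnt : Nontrivial (Fin n ⊕ Fin k) :=
    ⟨⟨Sum.inl ⟨0, by omega⟩, Sum.inl ⟨1, by omega⟩, by simp⟩⟩
  have hA : Set.range A ⊆ Set.range p := by
    rintro _ ⟨i, rfl⟩
    exact ⟨Sum.inl i, hp i⟩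
  refine exch hG.connected fun u v w x huv hconn => ?_
  exact exchange hA hS.2.2.2
    (fun a b a' b' h1 h2 h3 => (hemb a b a' b' h1 h2 h3).trans Set.inter_subset_right) huv hconn

/-- **the number of the topologies** -/
theorem count {d n k c : ℕ}
    (hc : ∀ (S : Finset ℕ) (ω : ℕ → EuclideanSpace ℝ (Fin d)),
    (∀ b ∈ S, ‖ω b‖ ≤ 1) → (∀ b ∈ S, ∀ b' ∈ S, b ≠ b' → 1 / 2 ≤ ‖ω b - ω b'‖) → S.card ≤ c)
    (hn : 2 ≤ n) (A : Fin n → EuclideanSpace ℝ (Fin d)) :
    (tops k A).ncard ≤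
      2 ^ (n + k) * (2 * 16 ^ (4 * (1 + 2 * (c + 2 * (12 * d + 3) ^ d)) * (n + k))) := by
  classical
  obtain ⟨N, hNd⟩ : ∃ N, N = n + k := ⟨_, rfl⟩
  have hN : Fintype.card (Fin n ⊕ Fin k) = N := by
    rw [Fintype.card_sum, Fintype.card_fin, Fintype.card_fin, hNd]
  have hch : ∀ τ : tops k A, ∃ G : SimpleGraph (Fin n ⊕ Fin k), Topo.mk G = τ.1 ∧ Has A G :=
    fun τ => τ.2
  choose G hG1 hG2 using hch
  have hch2 := fun τ => (hG2 τ).2
  choose p hp1 hp2 hp3 hp4 using hch2
  obtain ⟨X, hXd⟩ : ∃ X : Set (EuclideanSpace ℝ (Fin d)), X = ⋃ τ, Set.range (p τ) := ⟨_, rfl⟩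
  have hXf : X.Finite := by
    rw [hXd]
    exact Set.finite_iUnion fun τ => Set.finite_range _
  have hX : ∀ τ v, p τ v ∈ X := by
    intro τ v
    rw [hXd]
    exact Set.mem_iUnion.2 ⟨τ, v, rfl⟩
  obtain ⟨T, L, m, hL, hT1, hT2, hT3⟩ := normal X hXf
  have hdat : ∀ τ, Dat d m N (Fin n ⊕ Fin k) (fun v => T (p τ v)) (rk m fun v => T (p τ v)) (G τ) := by
    intro τ
    have h := dat_of hL hT1 hT2 hT3 (hX τ) (hp2 τ)
      (dist_ex hn (hG2 τ).1 (hp1 τ) (hp3 τ) (hp4 τ))
    rwa [hN] at h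
  obtain ⟨r, hr⟩ : ∃ r : tops k A → (Fin n ⊕ Fin k) → ℕ, r = fun τ => rk m fun v => T (p τ v) :=
    ⟨_, rfl⟩
  have hdat' : ∀ τ, Dat d m N (Fin n ⊕ Fin k) (fun v => T (p τ v)) (r τ) (G τ) := by
    intro τ
    rw [hr]
    exact hdat τ
  have hord : ∀ τ i i', r τ (Sum.inl i) < r τ (Sum.inl i') ↔ key m (T (A i)) < key m (T (A i')) := by
    intro τ i i'
    rw [hr, ← hp1 τ i, ← hp1 τ i']
    exact rk_lt_iff
  have := Fintype.ofFinite (tops k A)
  rw [← Nat.card_coe_set_eq, Nat.card_eq_fintype_card, ← Finset.card_univ]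
  have h1 : (Finset.univ : Finset (tops k A)).card ≤ ((Finset.range N).powerset ×ˢ
      cls (1 + 2 * (c + 2 * (12 * d + 3) ^ d)) N).card := by
    refine Finset.card_le_card_of_injOn
      (fun τ => (Finset.univ.image fun i => r τ (Sum.inl i), adjm (r τ) (G τ))) ?_ ?_
    · intro τ _
      rw [Finset.mem_coe, Finset.mem_product]
      refine ⟨?_, lin_of (hdat' τ) hc⟩
      rw [Finset.mem_powerset]
      intro x hx
      obtain ⟨i, -, rfl⟩ := Finset.mem_image.1 hx
      exact Finset.mem_range.2 ((hdat' τ).lt _)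
    · intro τ _ τ' _ h
      simp only [Prod.mk.injEq] at h
      have h2 := same_top hN (hdat' τ).inj (hdat' τ').inj (hdat' τ).lt (hdat' τ').lt h.1
        (fun i i' => (hord τ i i').trans (hord τ' i i').symm) h.2
      rw [hG1, hG1] at h2
      exact Subtype.ext h2
  refine h1.trans ?_
  rw [Finset.card_product, Finset.card_powerset, Finset.card_range, ← hNd]
  exact Nat.mul_le_mul_left _ (card_cls _ _)

/-- **`N_d(n)` grows at most exponentially, for every fixed `d`.** -/
theorem result : ∀ d : ℕ, ∃ C : ℕ, ∀ n : ℕ, 3 ≤ n →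
    (∀ A : Fin n → EuclideanSpace ℝ (Fin d), Function.Injective A → (fullTops A).ncard ≤ C ^ n) ∧
    Nd d n ≤ C ^ n := by
  intro d
  obtain ⟨c, hc⟩ := pack d
  obtain ⟨B, hB⟩ : ∃ B, B = 4 * 16 ^ (4 * (1 + 2 * (c + 2 * (12 * d + 3) ^ d))) := ⟨_, rfl⟩
  have hB1 : 1 ≤ B := by
    rw [hB]
    have := Nat.one_le_pow (4 * (1 + 2 * (c + 2 * (12 * d + 3) ^ d))) 16 (by norm_num)
    omega
  have key : ∀ n k : ℕ, 2 ≤ n → ∀ A : Fin n → EuclideanSpace ℝ (Fin d),
      (tops k A).ncard ≤ B ^ (n + k) := by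
    intro n k hn A
    refine (count hc hn A).trans ?_
    have h1 : 2 ≤ 2 ^ (n + k) := by
      calc 2 = 2 ^ 1 := by norm_num
        _ ≤ 2 ^ (n + k) := Nat.pow_le_pow_right (by norm_num) (by omega)
    calc 2 ^ (n + k) * (2 * 16 ^ (4 * (1 + 2 * (c + 2 * (12 * d + 3) ^ d)) * (n + k))) ≤
        2 ^ (n + k) * (2 ^ (n + k) * 16 ^ (4 * (1 + 2 * (c + 2 * (12 * d + 3) ^ d)) * (n + k))) := by
          gcongr
      _ = B ^ (n + k) := by
        rw [hB, mul_pow, ← pow_mul, ← mul_assoc, ← mul_pow]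
        norm_num
  have hfull : ∀ n : ℕ, 3 ≤ n → ∀ A : Fin n → EuclideanSpace ℝ (Fin d),
      (fullTops A).ncard ≤ (B ^ 2) ^ n := by
    intro n hn A
    have h1 : (fullTops A).ncard ≤ (tops (n - 2) A).ncard := by
      refine Set.ncard_le_ncard ?_ (Set.toFinite _)
      rintro τ ⟨G, h1, -, h2⟩
      exact ⟨G, h1, h2⟩
    refine h1.trans ((key n (n - 2) (by omega) A).trans ?_)
    rw [← pow_mul]
    exact Nat.pow_le_pow_right hB1 (by omega)
  refine ⟨B ^ 2, fun n hn => ⟨fun A _ => hfull n hn A, ?_⟩⟩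
  unfold Nd
  rcases Set.eq_empty_or_nonempty {N | ∃ A : Fin n → EuclideanSpace ℝ (Fin d),
    Function.Injective A ∧ N = (fullTops A).ncard} with h | h
  · rw [h, csSup_empty]
    exact Nat.zero_le _
  · refine csSup_le h ?_
    rintro N ⟨A, -, rfl⟩
    exact hfull n hn A

end Pool.Agent.Results.MP_816b7a_co.ExponentialBound
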